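import Pool.Agent.K6.H85.JL.Hes

/-!
# The intersection form of a manifold with algebro-geometric Gromov–Witten variation

Let `V` be a closed symplectic manifold of dimension `2n ≥ 4` with vanishing first Chern class
whose genus-zero Gromov–Witten invariants in the classes `β ≠ 0` vanish (for example an aspherical
one, `π₂(V) = 0`), let `N(w) = ∫ w^n` be the intersection form on `H² = H²(V, ℂ)`, and let `R` be
the subring of `H^even(V, ℂ)` generated by `H²`, with its parts `R_k ⊆ H^{2k}`.  Suppose that, near
one point, the variation with fibre `H^even(V, ℂ)` defined by the genus-zero Gromov–Witten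
invariants is equivalent to a subquotient of a semisimple variation of Hodge structures; by
Deligne's theorem, the variations carried by the cohomology of the fibres in families of smooth
projective varieties are semisimple.  We prove that the form `N` is of a very special kind: its
multiplicative Legendre transform is a form of the same degree.

* There is a form `N'` of degree `n` on `R_{n-1}`, with polarization `M`, such that
  `M(w^{n-1}, …, w^{n-1}, η) = N(w)^{n-2} ∫ w η` for all `η` in `R_{n-1}` and all `w` in `H²` with
  `N(w) ≠ 0`, such as the class of every symplectic form.  (By Poincaré duality for `R`, the space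
  `R_{n-1}` is the dual of `H²`, and `w ↦ w^{n-1}` is, up to the factor `n`, the gradient of `N`:
  the gradient map of `N` is birational, with inverse the gradient map of `N'`.  For `n = 3` this
  is the adjoint identity of cubic Jordan algebras.)
* If `b₂(V) = 2`, then in suitable coordinates of `H²` the form `N` is `c x^p y^q` with `c ≠ 0`,
  `p, q ≥ 1` and `p + q = n`.
* If `N` is an irreducible polynomial, then `n` divides `2 b₂(V)`.
-/

set_option autoImplicit false

namespace Pool.Agent.Results.MP_a4dd1d_ag.IntersectionForm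

open H956GW (GWNumbers IsGWConnection IsLocallySubquotientOfSemisimple)

/-- The even cohomology ring `H` of a closed connected oriented manifold of dimension `2n`, with its
grading and with integration over the manifold. -/
structure EvenCohomology (n : ℕ) (H : Type) [CommRing H] [Algebra ℂ H] where
  /-- `deg k = H^{2k}` -/
  deg : ℕ → Submodule ℂ H
  deg_zero : deg 0 = Submodule.span ℂ {1}
  mul_mem : ∀ i j, ∀ x ∈ deg i, ∀ y ∈ deg j, x * y ∈ deg (i + j)
  deg_large : ∀ k, n < k → ∀ x ∈ deg k, x = 0
  /-- integration over the manifold -/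
  integral : H →ₗ[ℂ] ℂ
  integral_deg : ∀ k, k ≠ n → ∀ x ∈ deg k, integral x = 0
  /-- integration is injective on `H^{2n}` -/
  integral_top : ∀ x ∈ deg n, integral x = 0 → x = 0
  /-- Poincaré duality -/
  duality : ∀ x, (∀ y, integral (x * y) = 0) → x = 0

namespace EvenCohomology

variable {n : ℕ} {H : Type} [CommRing H] [Algebra ℂ H] (V : EvenCohomology n H)

/-- The filtration by the classes of degree at most `p`. -/
def filtration (p : ℤ) : Submodule ℂ H := ⨆ (k : ℕ) (_ : 2 * (k : ℤ) ≤ p), V.deg k

/-- The subring `R` generated by `H²`. -/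
def R : Subalgebra ℂ H := Algebra.adjoin ℂ (V.deg 1 : Set H)

/-- The part `R_k` of degree `2k` of `R`. -/
def Rdeg (k : ℕ) : Submodule ℂ H := Subalgebra.toSubmodule V.R ⊓ V.deg k

/-- The intersection form `N(w) = ∫ w^n`, used for `w` in `H²`. -/
def N (w : H) : ℂ := V.integral (w ^ n)

/-- The class `w` in `H²` has a nonzero `n`-th power, as the class of a symplectic form does. -/
def Nondegenerate (w : H) : Prop := w ∈ V.deg 1 ∧ V.N w ≠ 0

/-- `M` is (the polarization of) the multiplicative Legendre transform of the intersection form: a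
symmetric `n`-linear form on `R_{n-1}` with `M(w^{n-1}, …, η, …, w^{n-1}) = N(w)^{n-2} ∫ w η`, where
`η` is at any one of the `n` places, for every nondegenerate `w`. -/
def IsLegendreTransform (M : MultilinearMap ℂ (fun _ : Fin n => V.Rdeg (n - 1)) ℂ) : Prop :=
  (∀ (σ : Equiv.Perm (Fin n)) (x : Fin n → V.Rdeg (n - 1)), M (x ∘ σ) = M x) ∧
    ∀ w, V.Nondegenerate w → ∀ ξ : V.Rdeg (n - 1), (ξ : H) = w ^ (n - 1) →
      ∀ (i : Fin n) (η : V.Rdeg (n - 1)),
        M (Function.update (fun _ => ξ) i η) = V.N w ^ (n - 2) * V.integral (w * η)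

/-- For some genus-zero Gromov–Witten numbers `g` of a manifold with even cohomology ring `H`, all
of whose invariants in nonzero classes vanish (`IsAspherical`), for the connection form `A` that
their pre-potential defines over `H²`, in linear coordinates `c` on `H²`, and for some point `t₀`,
the variation with fibre `H`, connection `d + A` and the filtration by degree is, near `t₀`,
equivalent to a subquotient of a semisimple variation. -/
def SomewhereSemisimple.{u₁, u₂, u₃, u₄} : Prop :=
  ∃ (B : Type) (_ : AddCommGroup B) (g : GWNumbers B H) (_ : g.IsAspherical V.integral)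
    (A : H → H → H → H) (_ : IsGWConnection V.integral (V.deg 1) g.prepotential A)
    (S : Type) (_ : NormedAddCommGroup S) (_ : NormedSpace ℂ S) (c : S ≃ₗ[ℂ] V.deg 1) (t₀ : S),
    IsLocallySubquotientOfSemisimple.{u₁, u₂, u₃, u₄} (fun t v h => A (c t) (c v) h)
      V.filtration t₀

end EvenCohomology

/-- **Main theorem.** Let `H` be the (finite-dimensional) even cohomology ring of a closed
symplectic manifold `V` of dimension `2n ≥ 4` (there is a nondegenerate class) whose Gromov–Witten
invariants in nonzero classes vanish. If its Gromov–Witten variation is, near some point,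
equivalent to a subquotient of a semisimple variation, then the multiplicative Legendre transform
of the intersection form `N` is a form of degree `n`; in particular `N` is `c x^p y^q` in some
coordinates, with `c ≠ 0` and `p, q ≥ 1`, if `b₂(V) = 2`, and `n` divides `2 b₂(V)` if `N` is an
irreducible polynomial. -/
theorem result.{u₁, u₂, u₃, u₄} (n : ℕ) (hn : 2 ≤ n) (H : Type) [CommRing H] [Algebra ℂ H]
    [Module.Finite ℂ H] (V : EvenCohomology n H) (hV : ∃ w, V.Nondegenerate w)
    (h : V.SomewhereSemisimple.{u₁, u₂, u₃, u₄}) :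
    (∃ M, V.IsLegendreTransform M) ∧
    (Module.finrank ℂ (V.deg 1) = 2 →
      ∃ (e : Module.Basis (Fin 2) ℂ (V.deg 1)) (c : ℂ) (p q : ℕ), c ≠ 0 ∧ 1 ≤ p ∧ 1 ≤ q ∧
        p + q = n ∧ ∀ x y : ℂ, V.N (x • (e 0 : H) + y • (e 1 : H)) = c * x ^ p * y ^ q) ∧
    ∀ (d : ℕ) (e : Module.Basis (Fin d) ℂ (V.deg 1)) (F : MvPolynomial (Fin d) ℂ),
      (∀ x : Fin d → ℂ, MvPolynomial.eval x F = V.N (∑ i, x i • (e i : H))) → Irreducible F →
        n ∣ 2 * d := by
  obtain ⟨w₀, hw₀, hw₀n⟩ := hV
  obtain ⟨B, _, g, hg, A, hA, S, _, _, c, t₀, hloc⟩ := h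
  have hes := Pool.Agent.K6.H85.JL.hes_of_main.{u₁, u₂, u₃, u₄} hn V.deg_zero V.mul_mem
    V.deg_large V.integral V.integral_deg V.integral_top V.duality w₀ hw₀ hw₀n B g hg A hA S c t₀
    hloc
  refine ⟨?_, ?_, ?_⟩
  · obtain ⟨M, h1, h2⟩ := Pool.Agent.K6.H85.JL.main2.{u₁, u₂, u₃, u₄} hn V.deg_zero V.mul_mem
      V.deg_large V.integral V.integral_deg V.integral_top V.duality w₀ hw₀ hw₀n B g hg A hA S c t₀
      hloc
    exact ⟨M, h1, fun w hw ξ hξ i η => h2 w hw.1 hw.2 ξ hξ i η⟩
  · intro hd
    obtain ⟨u, hu, v, hv, a, p, q, ha, hp, hq, hpq, hspan, hli, hform⟩ :=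
      Pool.Agent.K6.H85.JL.two_dim V.integral hd hn hw₀ hw₀n hes
    let u' : V.deg 1 := ⟨u, hu⟩
    let v' : V.deg 1 := ⟨v, hv⟩
    have hli' : LinearIndependent ℂ ![u', v'] := by
      rw [LinearIndependent.pair_iff] at hli ⊢
      intro s t hst
      exact hli s t (congrArg Subtype.val hst)
    have hcard : Fintype.card (Fin 2) = Module.finrank ℂ (V.deg 1) := by
      rw [hd, Fintype.card_fin]
    refine ⟨basisOfLinearIndependentOfCardEqFinrank hli' hcard, a, p, q, ha, hp, hq, hpq, ?_⟩
    intro x y
    rw [coe_basisOfLinearIndependentOfCardEqFinrank]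
    exact hform x y
  · intro d e F hF hirr
    exact Pool.Agent.K6.H85.JL.irreducible_form V.integral hn hw₀ hw₀n hes e F hF hirr

end Pool.Agent.Results.MP_a4dd1d_ag.IntersectionForm
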