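import Pool.Agent.K6.H85.GW.Asm

/-!
# Algebro-geometric Gromov–Witten variations have the Jordan–Lefschetz property

Let `V` be a closed symplectic manifold of dimension `2n > 0` with vanishing first Chern class
whose genus-zero Gromov–Witten invariants in the classes `β ≠ 0` vanish (for example an aspherical
one, `π₂(V) = 0`), and let `R` be the subring of `H^even(V, ℂ)` generated by `H² = H²(V, ℂ)`, with
its parts `R_k ⊆ H^{2k}`.  Suppose that, near one point, the variation with fibre `H^even(V, ℂ)`
defined by the genus-zero Gromov–Witten invariants is equivalent to a subquotient of a semisimple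
variation of Hodge structures; by Deligne's theorem, the variations carried by the cohomology of
the fibres in families of smooth projective varieties are semisimple.  Then `(H², R)` is a
Jordan–Lefschetz module in the sense of Looijenga and Lunts:

* `R` satisfies Poincaré duality;
* hard Lefschetz holds on `R` for EVERY class `w` in `H²(V, ℂ)` with `∫ w^n ≠ 0`, such as the class
  of every symplectic form: `w ^ (n - 2k) : R_k → R_{n-k}` is bijective for `2k ≤ n`;
* the dual Lefschetz operators `Λ_w` (of degree `-1`, with `[w, Λ_w] = 2k - n` on `R_k`) of all these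
  classes commute with each other.

Thus a single symplectic form (real or complex) for which hard Lefschetz fails on `R` makes the
variation non-algebro-geometric at every point.
-/

set_option autoImplicit false

namespace Pool.Agent.Results.MP_a4dd1d_ag.JordanLefschetz

open H956GW (GWNumbers IsGWConnection IsLocallySubquotientOfSemisimple)

/-- The even cohomology ring `H` of a closed connected oriented manifold of dimension `2n`, with its
grading and with integration over the manifold. -/
structure EvenCohomology (n : ℕ) (H : Type) [CommRing H] [Algebra ℂ H] where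
  /-- `deg k = H^{2k}` -/
  deg : ℕ → Submodule ℂ H
  deg_zero : deg 0 = Submodule.span ℂ {1}
  mul_mem : ∀ i j, ∀ x ∈ deg i, ∀ y ∈ deg j, x * y ∈ deg (i + j)
  deg_large : ∀ k, n < k → ∀ x ∈ deg k, x = 0
  /-- integration over the manifold -/
  integral : H →ₗ[ℂ] ℂ
  integral_deg : ∀ k, k ≠ n → ∀ x ∈ deg k, integral x = 0
  /-- integration is injective on `H^{2n}` -/
  integral_top : ∀ x ∈ deg n, integral x = 0 → x = 0
  /-- Poincaré duality -/
  duality : ∀ x, (∀ y, integral (x * y) = 0) → x = 0

namespace EvenCohomology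

variable {n : ℕ} {H : Type} [CommRing H] [Algebra ℂ H] (V : EvenCohomology n H)

/-- The filtration by the classes of degree at most `p`. -/
def filtration (p : ℤ) : Submodule ℂ H := ⨆ (k : ℕ) (_ : 2 * (k : ℤ) ≤ p), V.deg k

/-- The subring `R` generated by `H²`. -/
def R : Subalgebra ℂ H := Algebra.adjoin ℂ (V.deg 1 : Set H)

/-- The part `R_k` of degree `2k` of `R`. -/
def Rdeg (k : ℕ) : Submodule ℂ H := Subalgebra.toSubmodule V.R ⊓ V.deg k

/-- The class `w` in `H²` has a nonzero `n`-th power, as the class of a symplectic form does. -/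
def Nondegenerate (w : H) : Prop := w ∈ V.deg 1 ∧ V.integral (w ^ n) ≠ 0

/-- The ring `R` satisfies Poincaré duality. -/
def RDuality : Prop := ∀ b ∈ V.R, (∀ a ∈ V.R, V.integral (a * b) = 0) → b = 0

/-- Hard Lefschetz for the class `w` on `R`. -/
def HardLefschetz (w : H) : Prop :=
  ∀ k, 2 * k ≤ n → Set.BijOn (fun x => w ^ (n - 2 * k) * x) (V.Rdeg k) (V.Rdeg (n - k))

/-- `Λ` is, on `R`, the dual Lefschetz operator of `w`: it has degree `-1` (`-2` in cohomological
degrees) and `w (Λ x) - Λ (w x) = (2k - n) x` for `x` in `R_k`. -/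
def IsDualOperator (w : H) (Λ : H →ₗ[ℂ] H) : Prop :=
  (∀ x ∈ V.Rdeg 0, Λ x = 0) ∧ (∀ k, ∀ x ∈ V.Rdeg (k + 1), Λ x ∈ V.Rdeg k) ∧
    ∀ k, ∀ x ∈ V.Rdeg k, w * Λ x - Λ (w * x) = (2 * k - n : ℂ) • x

/-- The Jordan–Lefschetz property: Poincaré duality for `R`, hard Lefschetz on `R` for all
nondegenerate classes, and commuting dual Lefschetz operators. -/
def JordanLefschetz : Prop :=
  V.RDuality ∧ (∀ w, V.Nondegenerate w → V.HardLefschetz w) ∧
    ∃ Λ : H → (H →ₗ[ℂ] H), (∀ w, V.Nondegenerate w → V.IsDualOperator w (Λ w)) ∧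
      ∀ w w', V.Nondegenerate w → V.Nondegenerate w' → ∀ x ∈ V.R, Λ w (Λ w' x) = Λ w' (Λ w x)

/-- For some genus-zero Gromov–Witten numbers `g` of a manifold with even cohomology ring `H`, all
of whose invariants in nonzero classes vanish (`IsAspherical`), for the connection form `A` that
their pre-potential defines over `H²`, in linear coordinates `c` on `H²`, and for some point `t₀`,
the variation with fibre `H`, connection `d + A` and the filtration by degree is, near `t₀`,
equivalent to a subquotient of a semisimple variation. -/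
def SomewhereSemisimple.{u₁, u₂, u₃, u₄} : Prop :=
  ∃ (B : Type) (_ : AddCommGroup B) (g : GWNumbers B H) (_ : g.IsAspherical V.integral)
    (A : H → H → H → H) (_ : IsGWConnection V.integral (V.deg 1) g.prepotential A)
    (S : Type) (_ : NormedAddCommGroup S) (_ : NormedSpace ℂ S) (c : S ≃ₗ[ℂ] V.deg 1) (t₀ : S),
    IsLocallySubquotientOfSemisimple.{u₁, u₂, u₃, u₄} (fun t v h => A (c t) (c v) h)
      V.filtration t₀

end EvenCohomology

/-- **Main theorem.** Let `H` be the (finite-dimensional) even cohomology ring of a closed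
symplectic manifold `V` of dimension `2n > 0` (there is a nondegenerate class) whose Gromov–Witten
invariants in nonzero classes vanish. If its Gromov–Witten variation is, near some point,
equivalent to a subquotient of a semisimple variation, then `V` has the Jordan–Lefschetz
property. -/
theorem result.{u₁, u₂, u₃, u₄} (n : ℕ) (hn : 1 ≤ n) (H : Type) [CommRing H] [Algebra ℂ H]
    [Module.Finite ℂ H] (V : EvenCohomology n H) (hV : ∃ w, V.Nondegenerate w)
    (h : V.SomewhereSemisimple.{u₁, u₂, u₃, u₄}) : V.JordanLefschetz := by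
  obtain ⟨w₀, hw₀, hw₀n⟩ := hV
  obtain ⟨B, _, g, hg, A, hA, S, _, _, c, t₀, hloc⟩ := h
  refine ⟨?_, ?_, ?_⟩
  · intro b hb hab
    by_contra hb0
    exact Pool.Agent.Y348.GW.criterion.{u₁, u₂, u₃, u₄} V.deg_zero V.mul_mem V.deg_large V.integral
      V.integral_deg V.integral_top V.duality w₀ hw₀ hw₀n b hb hb0 hab B g hg A hA S c t₀ hloc
  · obtain ⟨Λ, h1, -⟩ := Pool.Agent.K6.H85.GW.main.{u₁, u₂, u₃, u₄} hn V.deg_zero V.mul_mem
      V.deg_large V.integral V.integral_deg V.integral_top V.duality w₀ hw₀ hw₀n B g hg A hA S c t₀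
      hloc
    exact fun w hw => (h1 w hw.1 hw.2).2.2.2
  · obtain ⟨Λ, h1, h2⟩ := Pool.Agent.K6.H85.GW.main.{u₁, u₂, u₃, u₄} hn V.deg_zero V.mul_mem
      V.deg_large V.integral V.integral_deg V.integral_top V.duality w₀ hw₀ hw₀n B g hg A hA S c t₀
      hloc
    refine ⟨Λ, fun w hw => ?_, fun w w' hw hw' x hx => h2 w hw.1 w' hw'.1 hw.2 hw'.2 x hx⟩
    exact ⟨(h1 w hw.1 hw.2).1, (h1 w hw.1 hw.2).2.1, (h1 w hw.1 hw.2).2.2.1⟩

end Pool.Agent.Results.MP_a4dd1d_ag.JordanLefschetz
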