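import Pool.Agent.K6.H85.EV.Fin

/-!
# Algebro-geometric Gromov–Witten variations: the Lefschetz decomposition of the even cohomology

Let `V` be a closed symplectic manifold of dimension `2n > 0` with vanishing first Chern class
whose genus-zero Gromov–Witten invariants in the classes `β ≠ 0` vanish, and let `R` be the subring
of `H^even(V, ℂ)` generated by `H² = H²(V, ℂ)`.  Suppose that, near one point, the variation with
fibre `H^even(V, ℂ)` defined by the genus-zero Gromov–Witten invariants is equivalent to a
subquotient of a semisimple variation of Hodge structures (by Deligne's theorem, the variations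
carried by the cohomology of the fibres in families of smooth projective varieties are semisimple).
Then the whole of `H^even(V, ℂ)`, as a graded `R`-module, is a direct sum of graded submodules
`L_m`, `m ≥ 0`, such that `R ⊆ L_n` and EVERY class `w` in `H²(V, ℂ)` with `∫ w^n ≠ 0` satisfies
hard Lefschetz on each `L_m`, about the centre `m / 2`: `w ^ (m - 2k) : L_m ∩ H^{2k} → L_m ∩ H^{2(m-k)}`
is bijective for `2k ≤ m`, and `L_m ∩ H^{2k} = 0` for `k > m`.  Moreover every such `w` has a dual
Lefschetz operator `Λ_w` on `H^even(V, ℂ)`, of degree `-1`, preserving each `L_m`, with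
`[w, Λ_w] = 2k - m` on `L_m ∩ H^{2k}`, and all these operators commute with each other.

In particular the ranks of the maps `w ^ j : H^{2k}(V, ℂ) → H^{2(k+j)}(V, ℂ)` are the same for all
these classes `w`, such as the classes of all symplectic forms.
-/

set_option autoImplicit false

namespace Pool.Agent.Results.MP_a4dd1d_ag.LefschetzDecomposition

open H956GW (GWNumbers IsGWConnection IsLocallySubquotientOfSemisimple)

/-- The even cohomology ring `H` of a closed connected oriented manifold of dimension `2n`, with its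
grading and with integration over the manifold. -/
structure EvenCohomology (n : ℕ) (H : Type) [CommRing H] [Algebra ℂ H] where
  /-- `deg k = H^{2k}` -/
  deg : ℕ → Submodule ℂ H
  /-- `H` is the direct sum of the `H^{2k}` -/
  internal : DirectSum.IsInternal deg
  deg_zero : deg 0 = Submodule.span ℂ {1}
  mul_mem : ∀ i j, ∀ x ∈ deg i, ∀ y ∈ deg j, x * y ∈ deg (i + j)
  deg_large : ∀ k, n < k → ∀ x ∈ deg k, x = 0
  /-- integration over the manifold -/
  integral : H →ₗ[ℂ] ℂ
  integral_deg : ∀ k, k ≠ n → ∀ x ∈ deg k, integral x = 0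
  /-- integration is injective on `H^{2n}` -/
  integral_top : ∀ x ∈ deg n, integral x = 0 → x = 0
  /-- Poincaré duality -/
  duality : ∀ x, (∀ y, integral (x * y) = 0) → x = 0

namespace EvenCohomology

variable {n : ℕ} {H : Type} [CommRing H] [Algebra ℂ H] (V : EvenCohomology n H)

/-- The filtration by the classes of degree at most `p`. -/
def filtration (p : ℤ) : Submodule ℂ H := ⨆ (k : ℕ) (_ : 2 * (k : ℤ) ≤ p), V.deg k

/-- The subring `R` generated by `H²`. -/
def R : Subalgebra ℂ H := Algebra.adjoin ℂ (V.deg 1 : Set H)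

/-- The class `w` in `H²` has a nonzero `n`-th power, as the class of a symplectic form does. -/
def Nondegenerate (w : H) : Prop := w ∈ V.deg 1 ∧ V.integral (w ^ n) ≠ 0

/-- Hard Lefschetz for the class `w` on the submodules `L m`, about the centre `m / 2`. -/
def HardLefschetzOn (L : ℕ → Submodule ℂ H) (w : H) : Prop :=
  ∀ m k : ℕ, (2 * k ≤ m → Set.BijOn (fun x => w ^ (m - 2 * k) * x)
      (L m ⊓ V.deg k : Submodule ℂ H) (L m ⊓ V.deg (m - k) : Submodule ℂ H)) ∧
    (m < k → L m ⊓ V.deg k = ⊥)

/-- `Λ` is a dual Lefschetz operator for the class `w`: it has degree `-1`, preserves the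
submodules `L m`, and its commutator with `w` is multiplication by `2k - m` on `L m ∩ H^{2k}`, so
that `w` and `Λ` generate an action of the Lie algebra `sl₂`. -/
def IsDualOperator (L : ℕ → Submodule ℂ H) (w : H) (Λ : H →ₗ[ℂ] H) : Prop :=
  (∀ x ∈ V.deg 0, Λ x = 0) ∧ (∀ k, ∀ x ∈ V.deg (k + 1), Λ x ∈ V.deg k) ∧
    (∀ m, ∀ x ∈ L m, Λ x ∈ L m) ∧
    ∀ m k, ∀ x ∈ L m ⊓ V.deg k, w * Λ x - Λ (w * x) = (2 * (k : ℂ) - m) • x

/-- The even cohomology is a direct sum of graded submodules over the ring generated by `H²`, one
of which contains this ring, on each of which all nondegenerate classes satisfy hard Lefschetz;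
and the nondegenerate classes have dual Lefschetz operators which commute with each other. -/
def HasLefschetzDecomposition : Prop :=
  ∃ (L : ℕ → Submodule ℂ H) (Λ : H → H →ₗ[ℂ] H), DirectSum.IsInternal L ∧
    (∀ k, V.deg k = ⨆ m, L m ⊓ V.deg k) ∧
    (∀ m, ∀ a ∈ V.R, ∀ x ∈ L m, a * x ∈ L m) ∧ Subalgebra.toSubmodule V.R ≤ L n ∧
    (∀ w, V.Nondegenerate w → V.HardLefschetzOn L w ∧ V.IsDualOperator L w (Λ w)) ∧
    ∀ w w', V.Nondegenerate w → V.Nondegenerate w' → ∀ x, Λ w (Λ w' x) = Λ w' (Λ w x)

/-- The rank of the map `w ^ j` on `H^{2k}`. -/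
noncomputable def rank (w : H) (j k : ℕ) : ℕ :=
  Module.finrank ℂ ((V.deg k).map (LinearMap.mulLeft ℂ (w ^ j)))

/-- For some genus-zero Gromov–Witten numbers `g` of a manifold with even cohomology ring `H`, all
of whose invariants in nonzero classes vanish (`IsAspherical`), for the connection form `A` that
their pre-potential defines over `H²`, in linear coordinates `c` on `H²`, and for some point `t₀`,
the variation with fibre `H`, connection `d + A` and the filtration by degree is, near `t₀`,
equivalent to a subquotient of a semisimple variation. -/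
def SomewhereSemisimple.{u₁, u₂, u₃, u₄} : Prop :=
  ∃ (B : Type) (_ : AddCommGroup B) (g : GWNumbers B H) (_ : g.IsAspherical V.integral)
    (A : H → H → H → H) (_ : IsGWConnection V.integral (V.deg 1) g.prepotential A)
    (S : Type) (_ : NormedAddCommGroup S) (_ : NormedSpace ℂ S) (c : S ≃ₗ[ℂ] V.deg 1) (t₀ : S),
    IsLocallySubquotientOfSemisimple.{u₁, u₂, u₃, u₄} (fun t v h => A (c t) (c v) h)
      V.filtration t₀

end EvenCohomology

/-- **Main theorem.** Let `H` be the (finite-dimensional) even cohomology ring of a closed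
symplectic manifold `V` of dimension `2n > 0` (there is a nondegenerate class) whose Gromov–Witten
invariants in nonzero classes vanish. If its Gromov–Witten variation is, near some point,
equivalent to a subquotient of a semisimple variation, then `H` has a Lefschetz decomposition with
commuting dual Lefschetz operators, and the Lefschetz maps of all nondegenerate classes have the
same ranks. -/
theorem result.{u₁, u₂, u₃, u₄} (n : ℕ) (hn : 1 ≤ n) (H : Type) [CommRing H] [Algebra ℂ H]
    [Module.Finite ℂ H] (V : EvenCohomology n H) (hV : ∃ w, V.Nondegenerate w)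
    (h : V.SomewhereSemisimple.{u₁, u₂, u₃, u₄}) :
    V.HasLefschetzDecomposition ∧
      ∀ w w', V.Nondegenerate w → V.Nondegenerate w' → ∀ j k, V.rank w j k = V.rank w' j k := by
  obtain ⟨w₀, hw₀, hw₀n⟩ := hV
  obtain ⟨B, _, g, hg, A, hA, S, _, _, c, t₀, hloc⟩ := h
  obtain ⟨L, Λ, h1, h2, h3, h4, h5, h6, h7, h8⟩ := Pool.Agent.K6.H85.EV.main.{u₁, u₂, u₃, u₄} hn
    V.internal V.deg_zero V.mul_mem V.deg_large V.integral V.integral_deg V.integral_top V.duality
    w₀ hw₀ hw₀n B g hg A hA S c t₀ hloc
  refine ⟨⟨L, Λ, h1, h2, ?_, h4, fun w hw => ⟨h5 w hw.1 hw.2, ?_⟩,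
    fun w w' hw hw' => h7 w hw.1 w' hw'.1 hw.2 hw'.2⟩,
    fun w w' hw hw' j k => h8 w hw.1 w' hw'.1 hw.2 hw'.2 k j⟩
  swap
  · obtain ⟨a1, a2, a3, a4⟩ := h6 w hw.1 hw.2
    exact ⟨a2, a3, a1, a4⟩
  intro m a ha
  have ha' : a ∈ Algebra.adjoin ℂ (V.deg 1 : Set H) := ha
  clear ha
  induction ha' using Algebra.adjoin_induction with
  | mem a ha => exact h3 m a ha
  | algebraMap z =>
    intro x hx
    rw [← Algebra.smul_def]
    exact (L m).smul_mem z hx
  | add a b ha hb iha ihb =>
    intro x hx
    rw [add_mul]
    exact (L m).add_mem (iha x hx) (ihb x hx)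
  | mul a b ha hb iha ihb =>
    intro x hx
    rw [mul_assoc]
    exact iha _ (ihb x hx)

end Pool.Agent.Results.MP_a4dd1d_ag.LefschetzDecomposition
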