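import Pool.Agent.K6.H85.GW.Asm

/-!
# Products `M × N` with `b₁(M)` odd

Let `M` and `N` be closed oriented manifolds of dimensions `2m` and `2k` with classes `w ∈ H²(M, ℂ)`
and `ν ∈ H²(N, ℂ)` such that `∫ w^m ≠ 0` and `∫ ν^k ≠ 0` (for example symplectic manifolds).  Suppose
that hard Lefschetz fails in degree one for `(M, w)`: there is `a ≠ 0` in `H¹(M)` with
`w^(m-1) a = 0`; this is so if `b₁(M)` is odd, as for the Kodaira–Thurston manifold, and for every
symplectic nilmanifold `M` that is not a torus (Benson–Gordon).  Suppose that `b₁(N) ≠ 0`, as for a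
torus `N`.  Let `V` be a closed symplectic manifold with vanishing first Chern class whose
genus-zero Gromov–Witten invariants in nonzero classes vanish (for example an aspherical one) and
that has a map of nonzero degree onto `M × N`, for example `V = M × N` with `M` and `N` aspherical.
Then the variation with fibre `H^even(V, ℂ)` defined by the Gromov–Witten invariants of `V` is not
locally equivalent, at any point, to a subquotient of a semisimple variation; so by Deligne's
theorem it is not algebro-geometric.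
-/

set_option autoImplicit false

namespace Pool.Agent.Results.MP_a4dd1d_ag.ProductsOddBetti

open H956GW (GWNumbers IsGWConnection IsLocallySubquotientOfSemisimple)

/-- The cohomology ring `A` of a closed connected oriented manifold of dimension `N`, with its
grading and with integration over the manifold. -/
structure CohomologyRing (N : ℕ) (A : Type) [Ring A] [Algebra ℂ A] where
  /-- `deg k = H^k` -/
  deg : ℕ → Submodule ℂ A
  deg_zero : deg 0 = Submodule.span ℂ {1}
  mul_mem : ∀ i j, ∀ x ∈ deg i, ∀ y ∈ deg j, x * y ∈ deg (i + j)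
  /-- graded commutativity -/
  comm : ∀ i j, ∀ x ∈ deg i, ∀ y ∈ deg j, x * y = (-1 : ℂ) ^ (i * j) • (y * x)
  total : ⨆ k, deg k = ⊤
  deg_large : ∀ k, N < k → ∀ x ∈ deg k, x = 0
  /-- integration over the manifold -/
  integral : A →ₗ[ℂ] ℂ
  integral_deg : ∀ k, k ≠ N → ∀ x ∈ deg k, integral x = 0
  /-- Poincaré duality -/
  duality : ∀ x, (∀ y, integral (x * y) = 0) → x = 0

/-- The even cohomology ring `H` of a closed connected oriented manifold of dimension `2n`, with its
grading and with integration over the manifold. -/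
structure EvenCohomology (n : ℕ) (H : Type) [CommRing H] [Algebra ℂ H] where
  /-- `deg k = H^{2k}` -/
  deg : ℕ → Submodule ℂ H
  deg_zero : deg 0 = Submodule.span ℂ {1}
  mul_mem : ∀ i j, ∀ x ∈ deg i, ∀ y ∈ deg j, x * y ∈ deg (i + j)
  deg_large : ∀ k, n < k → ∀ x ∈ deg k, x = 0
  /-- integration over the manifold -/
  integral : H →ₗ[ℂ] ℂ
  integral_deg : ∀ k, k ≠ n → ∀ x ∈ deg k, integral x = 0
  /-- integration is injective on `H^{2n}` -/
  integral_top : ∀ x ∈ deg n, integral x = 0 → x = 0
  /-- Poincaré duality -/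
  duality : ∀ x, (∀ y, integral (x * y) = 0) → x = 0

/-- The filtration by the classes of degree at most `p`. -/
def EvenCohomology.filtration {n : ℕ} {H : Type} [CommRing H] [Algebra ℂ H]
    (V : EvenCohomology n H) (p : ℤ) : Submodule ℂ H := ⨆ (k : ℕ) (_ : 2 * (k : ℤ) ≤ p), V.deg k

/-- The even cohomology ring `H` is the even part of the cohomology ring `B`. -/
structure IsEvenPart {n : ℕ} {B : Type} [Ring B] [Algebra ℂ B] (X : CohomologyRing (2 * n) B)
    {H : Type} [CommRing H] [Algebra ℂ H] (V : EvenCohomology n H) where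
  /-- the inclusion of the even part -/
  incl : H →ₐ[ℂ] B
  deg : ∀ k, (V.deg k).map incl.toLinearMap = X.deg (2 * k)
  integral : ∀ x, V.integral x = X.integral (incl x)

/-- The effect on cohomology of a map `X → M × N` of nonzero degree, for example of the identity of
`X = M × N`. -/
structure DominatesProduct {a b c : ℕ} {A A' B : Type} [Ring A] [Algebra ℂ A] [Ring A']
    [Algebra ℂ A'] [Ring B] [Algebra ℂ B] (M : CohomologyRing a A) (N : CohomologyRing b A')
    (X : CohomologyRing c B) where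
  /-- the pullback along `X → M` -/
  pull₁ : A →ₐ[ℂ] B
  /-- the pullback along `X → N` -/
  pull₂ : A' →ₐ[ℂ] B
  pull₁_mem : ∀ k, ∀ x ∈ M.deg k, pull₁ x ∈ X.deg k
  pull₂_mem : ∀ k, ∀ x ∈ N.deg k, pull₂ x ∈ X.deg k
  /-- the degree of the map -/
  degree : ℂ
  degree_ne : degree ≠ 0
  integral_mul : ∀ x y, X.integral (pull₁ x * pull₂ y) = degree * (M.integral x * N.integral y)

/-- For genus-zero Gromov–Witten numbers `g` with vanishing invariants in nonzero classes
(`IsAspherical`) of a manifold with even cohomology ring `H`, integration `integral`, `H² = H2` and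
filtration by degree `F`, for the connection form `A` that their pre-potential defines over `H²`, in
linear coordinates `c` on `H²`, and for any point `t₀`, the variation with fibre `H`, connection
`d + A` and the filtration `F` is not, near `t₀`, equivalent to a subquotient of a semisimple
variation. -/
def NowhereAlgebroGeometric.{u₁, u₂, u₃, u₄} {H : Type} [CommRing H] [Algebra ℂ H]
    (integral : H →ₗ[ℂ] ℂ) (H2 : Submodule ℂ H) (F : ℤ → Submodule ℂ H) : Prop :=
  ∀ (B : Type) [AddCommGroup B] (g : GWNumbers B H), g.IsAspherical integral →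
  ∀ A : H → H → H → H, IsGWConnection integral H2 g.prepotential A →
  ∀ (S : Type) [NormedAddCommGroup S] [NormedSpace ℂ S] (c : S ≃ₗ[ℂ] H2) (t₀ : S),
    ¬ IsLocallySubquotientOfSemisimple.{u₁, u₂, u₃, u₄} (fun t v h => A (c t) (c v) h) F t₀

/-! ### Preparations -/

section prep

variable {N : ℕ} {A : Type} [Ring A] [Algebra ℂ A] (M : CohomologyRing N A)

theorem CohomologyRing.one_mem : (1 : A) ∈ M.deg 0 := by
  rw [M.deg_zero]; exact Submodule.mem_span_singleton_self _

theorem CohomologyRing.pow_mem {w : A} (hw : w ∈ M.deg 2) (k : ℕ) : w ^ k ∈ M.deg (2 * k) := by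
  induction k with
  | zero => rw [pow_zero]; exact M.one_mem
  | succ k ih => rw [pow_succ]; exact M.mul_mem _ _ _ ih _ hw

theorem CohomologyRing.even_comm {x : A} (hx : x ∈ M.deg 2) {j : ℕ} {y : A} (hy : y ∈ M.deg j) :
    x * y = y * x := by
  rw [M.comm 2 j x hx y hy, (even_two_mul j).neg_one_pow, one_smul]

/-- a nonzero class pairs nontrivially with a homogeneous one -/
theorem CohomologyRing.exists_pair {a : A} (ha : a ≠ 0) :
    ∃ j, ∃ y ∈ M.deg j, M.integral (a * y) ≠ 0 := by
  by_contra hcon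
  push Not at hcon
  apply ha
  apply M.duality
  intro y
  have hy : y ∈ ⨆ k, M.deg k := by rw [M.total]; trivial
  induction hy using Submodule.iSup_induction' with
  | mem j y hy => exact hcon j y hy
  | zero => rw [mul_zero, map_zero]
  | add x y _ _ hx hy => rw [mul_add, map_add, hx, hy, add_zero]

/-- an odd first Betti number is an obstruction to hard Lefschetz -/
theorem exists_of_odd [Module.Finite ℂ A] {m : ℕ} (M : CohomologyRing (2 * m) A) {w : A}
    (hw : w ∈ M.deg 2) (hodd : Odd (Module.finrank ℂ (M.deg 1))) :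
    ∃ a ∈ M.deg 1, a ≠ 0 ∧ w ^ (m - 1) * a = 0 := by
  rcases Nat.eq_zero_or_pos m with hm | hm
  · subst hm
    exfalso
    have : M.deg 1 = ⊥ := by
      rw [eq_bot_iff]
      intro x hx
      exact (Submodule.mem_bot ℂ).2 (M.deg_large 1 (by norm_num) x hx)
    rw [this, finrank_bot] at hodd
    exact absurd hodd (by decide)
  let b := Module.finBasis ℂ (M.deg 1)
  let G : Matrix (Fin (Module.finrank ℂ (M.deg 1))) (Fin (Module.finrank ℂ (M.deg 1))) ℂ :=
    Matrix.of fun i j => M.integral (w ^ (m - 1) * ((b j : A) * (b i : A)))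
  have hG : G.transpose = -G := by
    ext i j
    simp only [G, Matrix.transpose_apply, Matrix.of_apply, Matrix.neg_apply]
    rw [M.comm 1 1 _ (b i).2 _ (b j).2, mul_one, pow_one, mul_smul_comm, map_smul, neg_smul,
      one_smul]
  have hdet : G.det = 0 := by
    have h1 : G.det = (-1 : ℂ) ^ (Module.finrank ℂ (M.deg 1)) * G.det := by
      conv_lhs => rw [← Matrix.det_transpose, hG, Matrix.det_neg, Fintype.card_fin]
    rw [hodd.neg_one_pow] at h1
    have h2 : 2 * G.det = 0 := by linear_combination h1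
    exact (mul_eq_zero.1 h2).resolve_left two_ne_zero
  obtain ⟨v, hv0, hv⟩ := Matrix.exists_mulVec_eq_zero_iff.2 hdet
  let a : M.deg 1 := ∑ j, v j • b j
  have ha0 : a ≠ 0 := by
    intro h0
    apply hv0
    funext j
    exact Fintype.linearIndependent_iff.1 b.linearIndependent v h0 j
  have hmem : w ^ (m - 1) * (a : A) ∈ M.deg (2 * (m - 1) + 1) :=
    M.mul_mem _ _ _ (M.pow_mem hw _) _ a.2
  refine ⟨a, a.2, fun h => ha0 (Subtype.ext h), ?_⟩
  by_contra hne
  obtain ⟨j, y, hy, hy0⟩ := M.exists_pair hne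
  by_cases hj : 2 * (m - 1) + 1 + j = 2 * m
  · have hj1 : j = 1 := by omega
    subst hj1
    apply hy0
    -- `y` is a combination of the basis
    have hyb : (⟨y, hy⟩ : M.deg 1) = ∑ i, b.repr ⟨y, hy⟩ i • b i := (b.sum_repr _).symm
    have hy' : y = ∑ i, b.repr ⟨y, hy⟩ i • (b i : A) := by
      refine (congrArg Subtype.val hyb).trans ?_
      simp only [Submodule.coe_sum, Submodule.coe_smul]
    have ha' : (a : A) = ∑ j, v j • (b j : A) := by simp [a]
    rw [hy', Finset.mul_sum, map_sum]
    refine Finset.sum_eq_zero fun i _ => ?_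
    rw [mul_smul_comm, map_smul]
    have h1 := congrFun hv i
    simp only [Matrix.mulVec, dotProduct, G, Matrix.of_apply, Pi.zero_apply] at h1
    have h2 : M.integral (w ^ (m - 1) * (a : A) * (b i : A)) = 0 := by
      rw [ha', Finset.mul_sum, Finset.sum_mul, map_sum, ← h1]
      refine Finset.sum_congr rfl fun j _ => ?_
      rw [mul_smul_comm, smul_mul_assoc, map_smul, smul_eq_mul, mul_comm, mul_assoc]
    rw [h2, smul_zero]
  · exact hy0 (M.integral_deg _ hj _ (M.mul_mem _ _ _ hmem _ hy))

end prep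

/-- **Main theorem.** -/
theorem result.{u₁, u₂, u₃, u₄} {m k : ℕ} {A A' B H : Type}
    -- `M`, with a class `w` of nonzero top power, such that hard Lefschetz fails in degree one
    [Ring A] [Algebra ℂ A] [Module.Finite ℂ A] (M : CohomologyRing (2 * m) A)
    (w : A) (hw : w ∈ M.deg 2) (hwm : M.integral (w ^ m) ≠ 0)
    (hM : (∃ a ∈ M.deg 1, a ≠ 0 ∧ w ^ (m - 1) * a = 0) ∨ Odd (Module.finrank ℂ (M.deg 1)))
    -- `N`, with a class `ν` of nonzero top power and with nonzero first cohomology
    [Ring A'] [Algebra ℂ A'] (N : CohomologyRing (2 * k) A')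
    (ν : A') (hν : ν ∈ N.deg 2) (hνk : N.integral (ν ^ k) ≠ 0) (hN : N.deg 1 ≠ ⊥)
    -- `V`, with its cohomology ring `B` and its even cohomology ring `H`
    [Ring B] [Algebra ℂ B] (X : CohomologyRing (2 * (m + k)) B) (p : DominatesProduct M N X)
    [CommRing H] [Algebra ℂ H] [Module.Finite ℂ H] (V : EvenCohomology (m + k) H)
    (e : IsEvenPart X V) :
    NowhereAlgebroGeometric.{u₁, u₂, u₃, u₄} V.integral (V.deg 1) V.filtration := by
  obtain ⟨a, ha, ha0, hwa⟩ : ∃ a ∈ M.deg 1, a ≠ 0 ∧ w ^ (m - 1) * a = 0 := by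
    rcases hM with h | h
    · exact h
    · exact exists_of_odd M hw h
  have hm1 : 1 ≤ m := by
    rcases Nat.eq_zero_or_pos m with hm | hm
    · subst hm; exact absurd (M.deg_large 1 (by norm_num) a ha) ha0
    · exact hm
  obtain ⟨θ, hθ, hθ0⟩ := Submodule.exists_mem_ne_zero_of_ne_bot hN
  have hk1 : 1 ≤ k := by
    rcases Nat.eq_zero_or_pos k with hk | hk
    · subst hk; exact absurd (N.deg_large 1 (by norm_num) θ hθ) hθ0
    · exact hk
  -- the classes on `X`
  have hW := p.pull₁_mem 2 w hw
  have hU := p.pull₂_mem 2 ν hν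
  have ha' := p.pull₁_mem 1 a ha
  have hθ' := p.pull₂_mem 1 θ hθ
  have hWUc : Commute (p.pull₁ w) (p.pull₂ ν) := X.even_comm hW hU
  obtain ⟨wV, hwV, hwV'⟩ : ∃ u ∈ V.deg 1, e.incl u = p.pull₁ w + p.pull₂ ν := by
    have h1 : p.pull₁ w + p.pull₂ ν ∈ X.deg (2 * 1) := (X.deg 2).add_mem hW hU
    rw [← e.deg 1] at h1
    obtain ⟨u, hu, hu'⟩ := h1
    exact ⟨u, hu, hu'⟩
  obtain ⟨bV, hbV, hbV'⟩ : ∃ u ∈ V.deg 1, e.incl u = p.pull₁ a * p.pull₂ θ := by
    have h1 : p.pull₁ a * p.pull₂ θ ∈ X.deg (2 * 1) := X.mul_mem 1 1 _ ha' _ hθ'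
    rw [← e.deg 1] at h1
    obtain ⟨u, hu, hu'⟩ := h1
    exact ⟨u, hu, hu'⟩
  -- `b` is not zero
  have hb0 : bV ≠ 0 := by
    intro h0
    rw [h0, map_zero] at hbV'
    obtain ⟨i, y, hy, hy0⟩ := M.exists_pair ha0
    obtain ⟨j, z, hz, hz0⟩ := N.exists_pair hθ0
    have h1 := p.integral_mul (a * y) (θ * z)
    have h2 : p.pull₁ (a * y) * p.pull₂ (θ * z) = 0 := by
      rw [map_mul, map_mul, mul_assoc, ← mul_assoc (p.pull₁ y),
        X.comm i 1 _ (p.pull₁_mem i y hy) _ hθ', smul_mul_assoc, mul_smul_comm, mul_assoc,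
        ← mul_assoc (p.pull₁ a), ← hbV', zero_mul, smul_zero]
    rw [h2, map_zero] at h1
    exact (mul_ne_zero p.degree_ne (mul_ne_zero hy0 hz0)) h1.symm
  -- the top power
  have hwn : V.integral (wV ^ (m + k)) ≠ 0 := by
    rw [e.integral, map_pow, hwV', hWUc.add_pow, map_sum,
      Finset.sum_eq_single_of_mem m (Finset.mem_range.2 (by omega))]
    · rw [← map_pow, ← map_pow, Nat.add_sub_cancel_left, ← nsmul_eq_mul', map_nsmul,
        p.integral_mul, nsmul_eq_mul]
      refine mul_ne_zero ?_ (mul_ne_zero p.degree_ne (mul_ne_zero hwm hνk))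
      exact_mod_cast (Nat.choose_pos (by omega)).ne'
    · intro i hi him
      rw [← map_pow, ← map_pow]
      rcases Nat.lt_or_gt_of_ne him with h | h
      · have h1 : ν ^ (m + k - i) = 0 := N.deg_large _ (by omega) _ (N.pow_mem hν _)
        rw [h1, map_zero, mul_zero, zero_mul, map_zero]
      · have h1 : w ^ i = 0 := M.deg_large _ (by omega) _ (M.pow_mem hw _)
        rw [h1, map_zero, zero_mul, zero_mul, map_zero]
  -- injectivity of the inclusion
  have hinj : ∀ x, e.incl x = 0 → x = 0 := by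
    intro x hx
    apply V.duality
    intro y
    rw [e.integral, map_mul, hx, zero_mul, map_zero]
  -- hard Lefschetz fails
  have hfail : wV ^ (m + k - 2) * bV = 0 := by
    apply hinj
    rw [map_mul, map_pow, hwV', hbV', hWUc.add_pow, Finset.sum_mul]
    refine Finset.sum_eq_zero fun i hi => ?_
    rw [← nsmul_eq_mul', smul_mul_assoc]
    have h1 : p.pull₁ w ^ i * p.pull₂ ν ^ (m + k - 2 - i) * (p.pull₁ a * p.pull₂ θ) =
        p.pull₁ (w ^ i * a) * p.pull₂ (ν ^ (m + k - 2 - i) * θ) := by
      have h2 : p.pull₂ (ν ^ (m + k - 2 - i)) * p.pull₁ a =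
          p.pull₁ a * p.pull₂ (ν ^ (m + k - 2 - i)) := by
        rw [X.comm _ 1 _ (p.pull₂_mem _ _ (N.pow_mem hν (m + k - 2 - i))) _ ha', mul_one,
          (even_two_mul _).neg_one_pow, one_smul]
      rw [map_mul, map_mul, ← map_pow, ← map_pow, mul_assoc, ← mul_assoc (p.pull₂ _), h2]
      simp only [mul_assoc]
    rw [h1]
    rcases Nat.lt_or_ge i (m - 1) with h | h
    · have h2 : ν ^ (m + k - 2 - i) * θ = 0 :=
        N.deg_large _ (by omega) _ (N.mul_mem _ _ _ (N.pow_mem hν _) _ hθ)
      rw [h2, map_zero, mul_zero, smul_zero]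
    · have h2 : w ^ i * a = 0 := by
        rw [show i = (i - (m - 1)) + (m - 1) by omega, pow_add, mul_assoc, hwa, mul_zero]
      rw [h2, map_zero, zero_mul, smul_zero]
  -- conclusion
  intro B' _ g hg A₀ hA₀ S _ _ c t₀ hloc
  obtain ⟨Λ, h1, -⟩ := Pool.Agent.K6.H85.GW.main.{u₁, u₂, u₃, u₄} (by omega) V.deg_zero V.mul_mem
      V.deg_large V.integral V.integral_deg V.integral_top V.duality wV hwV hwn B' g hg A₀ hA₀ S c t₀
      hloc
  have h2 := ((h1 wV hwV hwn).2.2.2 1 (by omega)).injOn
  have hbR : bV ∈ Pool.Agent.K6.H85.GW.Rk V.deg 1 := ⟨Algebra.subset_adjoin hbV, hbV⟩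
  have h3 := h2 hbR (Submodule.zero_mem _) (by
    change wV ^ (m + k - 2 * 1) * bV = wV ^ (m + k - 2 * 1) * 0
    rw [mul_zero, mul_one, hfail])
  exact hb0 h3

end Pool.Agent.Results.MP_a4dd1d_ag.ProductsOddBetti
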